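import Pool.Agent.K4H57.CI.Three

set_option autoImplicit false

/-!
# Codimension three: the Chern classes of smooth subvarieties of large projective spaces

Let `X ⊂ ℙ^N` be a smooth subvariety of codimension three and degree `d`, `N ≥ 12`. By Barth and
Larsen `H^{2i}(X, ℤ) = ℤ h^i` for `i ≤ 3`, so `X` is subcanonical, `ω_X = 𝒪_X(k)`, and the Chern
classes of `E = N_X(-1)` are `c_i h^i` with integers `c_i`; `c_1 = k + N - 2` and
`1 + c_1 + c_2 + c_3 = c_3(N_X) = d`. The bundle `E` is globally generated, so `0 ≤ c_i ≤ c_1 ^ i`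
(Fulton and Lazarsfeld). The Chern roots `a_1, a_2, a_3` of `N_X` are the roots of the polynomial
`chernPoly 3 c`; its discriminant is `disc3 c_1 c_2 c_3`. By the theorem of Hirzebruch, Riemann and
Roch `χ (X, 𝒪_X(m)) = ∑ (-1)^|S| binom (N + m - a_S, N)`, the sum over all `S ⊂ {1, 2, 3}`,
`a_S = ∑_{i ∈ S} a_i`; these numbers are integers, which gives the conditions `RiemannRochSub N`.

We show, for all `N ≥ N₀(A, ε)`: if one of the conditions

* `k + N - 2 ≤ N ^ (2/3 √e - ε)`, where `2/3 √e = 1.099…` (this holds for all `X` with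
  `k ≤ N ^ 1.09`, so for all Fano and Calabi-Yau manifolds and many manifolds of general type,
  whatever their degree),
* `d ≤ N ^ (√e - ε)`, where `√e = 1.648…`,
* `d ≤ N ^ A`, and the discriminant has an absolute value of at most `N ^ (4 √e - ε)`,

holds, then `a_1, a_2, a_3` are positive integers: `X` has the Chern classes, the degree
`a_1 a_2 a_3`, the canonical class and the Hilbert polynomial of a complete intersection of
hypersurfaces of degrees `a_1, a_2, a_3`.

The proof. (1) For all primes `3 < p ≤ N / 3` not dividing `d` the Chern polynomial is a product of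
linear factors modulo `p`. For `j = 1, 2, 3` the polynomial `x^(3-j) ((x^p - x) / p)^j` is
integer-valued of degree at most `N`; with the roots `b_i` in an algebraic closure of `𝔽_p` and
`β_i = b_i^p - b_i` the conditions become, by polarization, `j! (3-j)!` times the coefficient of `T^j`
of `∏ (b_i + β_i T)`, so this polynomial is the constant `d ≠ 0` and all `β_i` are `0`. (This works
in every codimension.) (2) The discriminant is a square modulo these primes, hence a perfect square
`s²` by the estimate of Burgess and the method of Vinogradov (starting results). (3) Let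
`α = (R + 3 s √-3) / 2` be the cube of the Lagrange resolvent, `α ᾱ = (c_1² - 3 c_2)³`. It is a cube
modulo the primes over `p`. If it is not a cube, cubic reciprocity and the symmetry `α ᾱ = n³` give a
nonprincipal Dirichlet character of order three and of the modulus `9 |s|` which is `1` at all these
primes; this contradicts the inequality of Pólya and Vinogradov, by the method of Vinogradov. So `α`
is a cube, and the polynomial splits.
-/

open Finset Polynomial

namespace Pool.Agent.Results.MP_014caa_ag.CodimensionThree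

open Pool.Agent.K4H57.CI

/-- **Codimension three.** -/
theorem result (A ε : ℝ) (hε : 0 < ε) : ∃ N₀ : ℕ, ∀ N ≥ N₀, ∀ c : ℕ → ℤ, c 0 = 1 →
    (∀ i ≤ 3, 0 ≤ c i) → (∀ i ≤ 3, c i ≤ c 1 ^ i) → RiemannRochSub N (chernPoly 3 c) →
    ((c 1 : ℝ) ≤ (N : ℝ) ^ (2 / 3 * Real.exp (1 / 2) - ε) ∨
      ((∑ i ∈ range 4, c i : ℤ) : ℝ) ≤ (N : ℝ) ^ (Real.exp (1 / 2) - ε) ∨
      (((∑ i ∈ range 4, c i : ℤ) : ℝ) ≤ (N : ℝ) ^ A ∧
        |((disc3 (c 1) (c 2) (c 3) : ℤ) : ℝ)| ≤ (N : ℝ) ^ (4 * Real.exp (1 / 2) - ε))) →
    ∃ a : Multiset ℤ, (∀ x ∈ a, 1 ≤ x) ∧ Multiset.card a = 3 ∧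
      chernPoly 3 c = (a.map fun x => X - C x).prod ∧
      (∀ i ≤ 3, c i = (a.map fun x => x - 1).esymm i) ∧
      ∑ i ∈ range 4, c i = a.prod := by
  obtain ⟨N₀, h⟩ := three A ε hε
  refine ⟨N₀, fun N hN c h0 hpos hle hRR hcase => ?_⟩
  obtain ⟨a, h1, h2, h3⟩ := h N hN c h0 hpos hle hRR hcase
  exact ⟨a, h1, h2, h3, chern_eq 3 c a h2 h3, degree_eq 3 c a h2 h3⟩

end Pool.Agent.Results.MP_014caa_ag.CodimensionThree
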