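import Pool.Agent.K4H57.EC.Final

set_option autoImplicit false

/-!
# Every codimension: the Chern classes of smooth subvarieties of degree at most `N ^ 1.31`

Let `X ⊂ ℙ^N` be a smooth subvariety of codimension `r` and degree `d`, `N ≥ 4 r`. By Barth and
Larsen `H^{2i}(X, ℤ) = ℤ h^i` for `i ≤ r`, so `X` is subcanonical and the Chern classes of
`E = N_X(-1)` are `c_i h^i` with integers `c_i`; by the self-intersection formula
`c_0 + c_1 + … + c_r = c_r(N_X) = d`. The bundle `E` is globally generated, so `0 ≤ c_i`. The Chern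
roots `a_1, …, a_r` of `N_X` are the roots of `chernPoly r c`. By the theorem of Hirzebruch, Riemann
and Roch `χ (X, 𝒪_X(m)) = ∑ (-1)^|S| binom (N + m - a_S, N)`, the sum over all `S ⊂ {1, …, r}`,
`a_S = ∑_{i ∈ S} a_i`; this gives the conditions `RiemannRochSub N`.

We show, for every `r` and all `N ≥ N₀(r)`: if `d ≤ N ^ 1.31`, then `a_1, …, a_r` are positive
integers: `X` has the Chern classes, the degree `∏ a_i`, the canonical class and the Hilbert
polynomial of a complete intersection of hypersurfaces of degrees `a_1, …, a_r`. The theorem of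
Bertram, Ein and Lazarsfeld (`X` is a complete intersection) needs `d ≤ N / (2 r)`; here `d` may be
much larger than `N`.

The proof. The Chern polynomial is a product of linear factors modulo all primes `r < p ≤ N / r` not
dividing `d`. Let `f` be an irreducible factor of degree `m` over `ℤ` and `K` its field. Nearly all
primes `p ≤ N / r` split completely in `K`. For `m ≥ 4` we use the Dedekind zeta function of `K`: the
explicit formula with a Gaussian weight, in which the zeros are estimated with the inequality of
Stechkin, shows that the discriminant of `K` is at least `(N / r) ^ (2 · 1.312 (m - 1))`. But the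
discriminant of `f` is at most `2^{m (m - 1)} M(f)^{2 (m - 1)}` with the Mahler measure `M(f) ≤ d` of
`f (T + 1)` (Landau's inequality for `∑ (-1)^i c_i T^{r-i}`): a contradiction. For `m = 2`, `3` we use the
results of codimension two and three (Burgess, cubic reciprocity, Pólya and Vinogradov). So `m = 1`.
-/

open Finset Polynomial

namespace Pool.Agent.Results.MP_014caa_ag.EveryCodimension

open Pool.Agent.K4H57.CI

/-- **Every codimension.** -/
theorem result (r : ℕ) : ∃ N₀ : ℕ, ∀ N ≥ N₀, ∀ c : ℕ → ℤ, c 0 = 1 →
    (∀ i ≤ r, 0 ≤ c i) → RiemannRochSub N (chernPoly r c) →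
    ((∑ i ∈ range (r + 1), c i : ℤ) : ℝ) ≤ (N : ℝ) ^ (1.31 : ℝ) →
    ∃ a : Multiset ℤ, (∀ x ∈ a, 1 ≤ x) ∧ Multiset.card a = r ∧
      chernPoly r c = (a.map fun x => X - C x).prod ∧
      (∀ i ≤ r, c i = (a.map fun x => x - 1).esymm i) ∧
      ∑ i ∈ range (r + 1), c i = a.prod := by
  obtain ⟨N₀, h⟩ := Pool.Agent.K4H57.EC.every r
  refine ⟨N₀, fun N hN c h0 hpos hRR hd => ?_⟩
  obtain ⟨a, h1, h2, h3⟩ := h N hN c h0 hpos hRR hd
  exact ⟨a, h1, h2, h3, chern_eq r c a h2 h3, degree_eq r c a h2 h3⟩

end Pool.Agent.Results.MP_014caa_ag.EveryCodimension
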