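import Pool.Agent.K4H57.UH.Almost
import Pool.Agent.K4H57.UH.Hilb
import Pool.Agent.K4H57.FC.Fin

set_option autoImplicit false

/-!
# Fano, Calabi-Yau and arithmetically Cohen-Macaulay varieties of any codimension

Let `X ⊂ ℙ^N` be a smooth subvariety of dimension `n` and codimension `r = N - n`, `N ≥ 4 r`. By Barth
and Larsen `H^{2i}(X, ℤ) = ℤ h^i` for `i ≤ r`, so `ω_X = 𝒪_X(k)`, and the Chern classes of the bundle
`E = N_X(-1)` are `c_i h^i` with integers `c_i`; `c_1 = k + n + 1`, and
`c_0 + c_1 + … + c_r = c_r(N_X)` is the degree `d` of `X`. The bundle `E` is a quotient of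
`T_ℙ(-1)`, so globally generated, and by Fulton and Lazarsfeld `0 ≤ c_i ≤ c_1 ^ i`. Let
`a_1, …, a_r` be the (complex) Chern roots of `N_X`, the roots of
`chernPoly r c = ∑ (-1)^i c_i (T - 1)^(r - i)`. As `∏ a_i = d`, the theorem of Hirzebruch, Riemann
and Roch gives

  `χ (X, 𝒪_X(t)) = ∑ (-1)^|S| binom (N + t - a_S, N)`,  `a_S = ∑_{i ∈ S} a_i`,

the sum over all `S ⊂ {1, …, r}` (`eulerChar`).

Let `X` be arithmetically Cohen-Macaulay: `H^q(X, 𝒪_X(t)) = 0` for `0 < q < n` and all `t`. Then the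
Hilbert series of the ring `⊕ H⁰(X, 𝒪_X(t))` is `(∑ δ_l z^l) / (1 - z)^(n + 1)` with integers
`δ_l ≥ 0` (the Hilbert function of the quotient by `n + 1` general linear forms); the degree of the
numerator is `n + 1 + k = c_1`, by duality. These are the conditions `HilbertNumerator`. They hold

* for all Fano varieties `X` (`k < 0`), by the vanishing theorem of Kodaira;
* for all Calabi-Yau varieties `X` (`k = 0`): for `t ≠ 0` by the vanishing theorem of Kodaira, and for
  `t = 0` by the theorem of Barth and Larsen (`q ≤ n - r`) and by duality (`q ≥ r`).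

We show, for every codimension `r`: all `a_i` are positive integers, if one of these conditions holds:

* `X` is a Fano or a Calabi-Yau variety (`c_1 ≤ n + 1`), and `N ≥ 30 r 2^r`;
* `N ≥ 3 √(2^r m) log (6 r m)`, where `m = c_1 + 2^(r + 2)`; for a fixed codimension `r` the condition
  is `k ≤ C_r (N / log N)²`;
* `N ≥ 5000 (c_1 + r (1 + log r))`, or `N ≥ 50 r (c_1 + 1) + 2 r min (r, c_1 + 1) log (4 c_1 + 2)` (here
  `X` is a Fano variety of index near to `N`, and `r log r` may be nearly as large as `N`).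

So `X` has the Chern classes, the degree `∏ a_i`, the canonical class `∑ a_i - N - 1` and the Hilbert
series `∏ (1 - z^{a_i}) / (1 - z)^(N + 1)` of a complete intersection of hypersurfaces of degrees
`a_1, …, a_r`. There is no condition on the degree.

The proof (first two cases). Let `q = (1 - z)^r ∑ δ_l z^l = ∑ q_j z^j`, a polynomial of degree at most
`σ = r + c_1 = ∑ a_i`. By the condition on the Hilbert polynomial the measures `∑ (-1)^|S| [a_S]` and
`∑ q_j [j]` have the same moments of order at most `N`. Let `R(z) = ∏ (z - a_S)`, the product over the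
`2^r - 2` proper nonempty `S`; the numbers `R(j)` are integers, as `R(j)` is a symmetric function of
the `a_i`. Let `g_j = q_j R(j)` without the contributions of `S = ∅` and of the set of all indices.
So the integers `g_j`, `0 ≤ j ≤ σ`, satisfy `∑ g_j u(j) = 0` for all polynomials `u` of degree at
most `N + 2 - 2^r`, and they are small: `|g_j| ≤ ((4 σ)^r + 2) ((2 r + 1) σ)^(2^r - 2)`. They
vanish. In the first case, the polynomial `∑ g_j z^j` is divisible by `(1 - z)^(N + 3 - 2^r)`, and the
cofactor has a degree less than `2^r`; if it is not zero, its lowest Taylor coefficient at `-1` is an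
integer, which gives a lower bound `2^(N + 3 - 2^r)`. In the second case, let `g_i` be the first
coefficient different from zero, and let `u` be the product of the `z - i - j`, `1 ≤ j ≤ 2^r - 2`, and
a Chebyshev polynomial for the interval `[i + 2^r - 1, i + D]`: it is large at `i` and small at
`i + 1, …, i + D`. So the difference of the two measures has at most `2^r - 2` points, and it vanishes.
As the measure `∑ (-1)^|S| [a_S]` has the integral of `z^j exp (2 π √-1 z)` equal to the one of `z^j` for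
`j < r`, all the `a_i` are integers; the positivity of the `c_j` gives `a_i ≥ 1`.
-/

open Finset Polynomial

namespace Pool.Agent.Results.MP_014caa_ag.FanoCalabiYau

open Pool.Agent.K4H57.CI Pool.Agent.K4H57.UH Pool.Agent.K4H57.FC

/-- **Fano, Calabi-Yau and arithmetically Cohen-Macaulay varieties, any codimension.** -/
theorem result (n r : ℕ) (hr : 1 ≤ r) (c δ : ℕ → ℕ) (h0 : c 0 = 1)
    (hle : ∀ i ≤ r, c i ≤ c 1 ^ i)
    (hH : HilbertNumerator n r (chernPoly r fun i => (c i : ℤ)) (c 1) δ)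
    (hN : (30 * r * 2 ^ r ≤ n + r ∧ c 1 ≤ n + 1) ∨
      3 * (√((2 : ℝ) ^ r * (c 1 + 2 ^ (r + 2))) * Real.log (6 * r * (c 1 + 2 ^ (r + 2)))) ≤
        n + r ∨
      5000 * ((c 1 : ℝ) + r * (1 + Real.log r)) ≤ n + r ∨
      50 * r * (c 1 + 1) + 2 * r * min (r : ℝ) (c 1 + 1) * Real.log (4 * c 1 + 2) ≤ n + r) :
    ∃ a : Multiset ℤ, (∀ x ∈ a, 1 ≤ x) ∧ Multiset.card a = r ∧
      chernPoly r (fun i => (c i : ℤ)) = (a.map fun x => X - C x).prod ∧
      (∀ i ≤ r, (c i : ℤ) = (a.map fun x => x - 1).esymm i) ∧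
      ∑ i ∈ range (r + 1), (c i : ℤ) = a.prod ∧
      (1 - X) ^ r * ∑ l ∈ range (c 1 + 1), C (δ l : ℤ) * X ^ l =
        (a.map fun x => (1 - X ^ x.toNat : ℤ[X])).prod := by
  have h0' : ((c 0 : ℕ) : ℤ) = 1 := by rw [h0]; rfl
  have hpos : ∀ i ≤ r, (0 : ℤ) ≤ (c i : ℤ) := fun i _ => by positivity
  have hle' : ∀ i ≤ r, ((c i : ℕ) : ℤ) ≤ ((c 1 : ℕ) : ℤ) ^ i := fun i hi => by
    exact_mod_cast hle i hi
  have hr1 : (1 : ℝ) ≤ r := by exact_mod_cast hr
  rw [← or_assoc] at hN
  rcases hN with hN | hN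
  · obtain ⟨a, h1, h2, h3, h4⟩ := fano_cy n r hr (fun i => (c i : ℤ)) h0' hpos hle' (c 1) rfl δ hH
      (hN.imp (fun h => ⟨h.1, Or.inl h.2⟩) id)
    exact ⟨a, h1, h2, h3, chern_eq r (fun i => (c i : ℤ)) a h2 h3,
      degree_eq r (fun i => (c i : ℤ)) a h2 h3, h4⟩
  have hA : r + c 1 ≤ n + r := by
    have h1 : ((r + c 1 : ℕ) : ℝ) ≤ ((n + r : ℕ) : ℝ) := by
      push_cast
      have he : (0 : ℝ) ≤ c 1 := by positivity
      rcases hN with hN | hN
      · have h2 : 0 ≤ (r : ℝ) * Real.log r := mul_nonneg (by linarith) (Real.log_nonneg hr1)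
        nlinarith
      · have h2 : 0 ≤ 2 * (r : ℝ) * min (r : ℝ) (c 1 + 1) * Real.log (4 * c 1 + 2) := by
          have h3 : 0 ≤ min (r : ℝ) (c 1 + 1) := le_min (by linarith) (by linarith)
          have h4 : 0 ≤ Real.log (4 * c 1 + 2) := Real.log_nonneg (by linarith)
          positivity
        nlinarith
    exact_mod_cast h1
  obtain ⟨a, h1, h2, h3⟩ : ∃ a : Multiset ℤ, (∀ x ∈ a, 1 ≤ x) ∧ Multiset.card a = r ∧
      chernPoly r (fun i => (c i : ℤ)) = (a.map fun x => X - C x).prod := by
    rcases hN with hN | hN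
    · exact almost_linear n r hr (fun i => (c i : ℤ)) h0' hpos hle' (c 1) rfl δ hH hN
    · refine Pool.Agent.K4H57.UN.linear_codim r (n + r) hr (fun i => (c i : ℤ)) h0' hpos hle'
        ?_ ?_
      · push_cast
        exact hN
      · obtain ⟨hcard, -⟩ := Pool.Agent.K4H57.UN.root_facts r hr (fun i => (c i : ℤ)) h0' hpos
          hle' (c 1) rfl
        obtain ⟨x, hx⟩ := Pool.Agent.R920.CH.exists_fun
          (Pool.Agent.R920.CH.rootsOf (chernPoly r fun i => (c i : ℤ))) (r := r) hcard
        exact rr_of (chernPoly r fun i => (c i : ℤ)) δ hH x hx.symm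
  exact ⟨a, h1, h2, h3, chern_eq r (fun i => (c i : ℤ)) a h2 h3,
    degree_eq r (fun i => (c i : ℤ)) a h2 h3,
    hilb_eq (fun i => (c i : ℤ)) rfl hr δ hH hA a h1 h2 h3⟩

end Pool.Agent.Results.MP_014caa_ag.FanoCalabiYau
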