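import Pool.Agent.K4H24.Fano.Linear

/-!
# Smooth Fano subvarieties of any codimension are numerically complete intersections

Let `X ⊂ ℙ^N` be a smooth variety of codimension `r`, `4 r ≤ N`, and let `h` be the class of a
hyperplane. The following is known.

* `H^{2 j}(X, ℤ) = ℤ h^j` for `j ≤ r` (Barth and Larsen), so the Chern classes of the normal bundle are
  `c_j h^j` with `c_j ∈ ℤ`. Let `a_1, …, a_r ∈ ℂ` be the Chern roots, `∑ c_j T^j = ∏ (1 + a_j T)`. Then
  `ω_X = 𝒪_X(k)` with `∑ a_j = N + 1 + k` (adjunction), and the degree of `X` is `D = ∏ a_j`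
  (self-intersection formula).
* By the theorem of Hirzebruch, Riemann and Roch `χ(𝒪_X(t))` is the coefficient of `h^N` in
  `e^{t h} (h / (1 - e^{-h}))^{N+1} ∏ (1 - e^{-a_j h})`, which is
  `∑_S (-1)^{|S|} binom(N + t - ∑_{j ∈ S} a_j, N)`, `S` running over the subsets of `{1, …, r}`
  (`hilbPoly`). It is the Hilbert polynomial of `X`.
* If `X` is a Fano variety, that is `k < 0`, then `H^q(X, 𝒪_X(t)) = 0` for `0 < q < dim X` and all `t`
  (Kodaira). We assume this also for `k ≥ 0`; it holds for example if `X` is arithmetically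
  Cohen-Macaulay. So, with `h(t) = dim H⁰(X, 𝒪_X(t))` and by Serre duality,
  `χ(𝒪_X(t)) = h(t) + (-1)^{dim X} h(k - t)`, and `h(t) = 0` for `t < 0`, `h(0) = 1`.
* `h(1) = N + 1` if `X` is not contained in a hyperplane (Zak's theorem on linear normality).

Let `e ≥ 1` be such that `h(t) = binom(N + t, N)` for `t < e`, that is, `X` is not contained in a
hypersurface of degree less than `e` and is `t`-normal for `t < e`. There is no condition if
`e = 1`, and `e = 2` is possible if `X` is not contained in a hyperplane. We show: **if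
`2 ^ r + k ≤ 2 e + 1`, then the `a_j` are positive integers.** So a Fano variety of index `i = -k` is
numerically a complete intersection if `2 ^ r ≤ i + 3`, or if `2 ^ r ≤ i + 5` and `X` is not
contained in a hyperplane: for `r = 2` all Fano varieties, for `r = 3` those of index at least `5`,
or at least `3` if they are not in a hyperplane. There is no condition on the degree of `X`, and for
given `r` all large `N` are allowed.

The Chern classes, the degree and the Hilbert polynomial of `X` are then those of a complete
intersection of type `(a_1, …, a_r)`, and for `t > k` there are at least as many hypersurfaces of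
degree `t` which contain `X` as for such a complete intersection. If `k ≤ 0` the codimension of `X`
in its linear span is at most the number of prime factors of `D`, and `2 ^ r ≤ D` if `X` is not
contained in a hyperplane; if `D` is a prime number then `X` is a complete intersection.

Proof. The sum over the `S` which are neither empty nor `{1, …, r}` is zero for `k - e < t < e`. There
are at most `2 ^ r - 2` different `∑_{j ∈ S} a_j`. By a Vandermonde determinant, if one of them is not
an integer between `e` and `∑ a_j - e`, the sum of the `(-1)^{|S|}` over the `S` with this value is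
zero. So `∏ (1 - e^{a_j s})` is a combination of the `e^{m s}`, `m` a natural number. It has the
period `2 π √-1`. Its order of vanishing is `r` at `0`, and it is the number of the integers among the
`a_j` at `2 π √-1`.
-/

set_option autoImplicit false

namespace Pool.Agent.Results.MP_014caa_ag.FanoSubvarieties

open MvPolynomial Pool.Agent.H929R2.Hart Pool.Agent.K4H24.Fano

/-- `I` is the homogeneous ideal of a nonsingular irreducible closed subvariety `X` of
codimension `r` of the complex projective space `ℙ^N`: it is a homogeneous prime ideal, `X` is not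
empty, and at every point of `X` the gradients of the elements of `I` span a space of dimension
`r` (Jacobian criterion). -/
structure IsSmoothVariety (N r : ℕ) (I : Ideal (MvPolynomial (Fin (N + 1)) ℂ)) : Prop where
  prime : I.IsPrime
  homogeneous : ∀ F ∈ I, ∀ d, homogeneousComponent d F ∈ I
  nonempty : ∃ x ∈ cone I, x ≠ 0
  smooth : ∀ x ∈ cone I, x ≠ 0 → Module.finrank ℂ (conormal I x) = r

/-- The known facts on a smooth variety `X ⊂ ℙ^N` of codimension `r`, `4 r ≤ N`, of degree `D`, with
`ω_X = 𝒪_X(k)` and without intermediate cohomology (for instance any Fano variety), where `a_j` are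
the Chern roots of the normal bundle and `h t` is the dimension of `H⁰(X, 𝒪_X(t))`. -/
structure CohomologyData (N r D : ℕ) (k : ℤ) (I : Ideal (MvPolynomial (Fin (N + 1)) ℂ))
    (a : Fin r → ℂ) (h : ℤ → ℕ) : Prop where
  /-- the adjunction formula `c₁(N_X) = K_X + (N + 1) h` -/
  adjunction : ∑ j, a j = N + 1 + k
  /-- the self-intersection formula `c_r(N_X) = D h^r` -/
  degree : 0 < D ∧ ∏ j, a j = D
  /-- the theorem of Hirzebruch, Riemann and Roch: the Hilbert polynomial -/
  riemannRoch : ∀ᶠ t : ℕ in Filter.atTop, (hilb I t : ℂ) = hilbPoly N a t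
  /-- `H^q(X, 𝒪_X(t)) = 0` for `0 < q < dim X` (Kodaira, if `k < 0`), and Serre duality -/
  euler : ∀ t : ℤ, hilbPoly N a t = h t + (-1) ^ (N + r) * h (k - t)
  /-- sections of negative sheaves -/
  negative : ∀ t < 0, h t = 0
  /-- the restrictions to `X` of the forms of degree `t` are sections of `𝒪_X(t)` -/
  restriction : ∀ t : ℕ, hilb I t ≤ h t

/-- Let `X ⊂ ℙ^N` be a smooth variety of codimension `r` and degree `D`, with `ω_X = 𝒪_X(k)` and
without intermediate cohomology, for instance a Fano variety of index `i = -k`. Let `e ≥ 1` be such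
that `X` is not contained in a hypersurface of degree less than `e` and is `t`-normal for `t < e`
(for `e = 1` this only says that `X` is connected). If `2 ^ r + k ≤ 2 e + 1` (and
`2 e ≤ N + 2 + k`) then there are positive integers `d_1, …, d_r` such that

* the Chern roots of the normal bundle are the `d_j`; in particular `D = ∏ d_j` and
  `k = ∑ d_j - N - 1`; moreover `d_j ≥ e` for all `j`, if `r ≥ 2`;
* the Hilbert polynomial of `X` is that of a complete intersection of type `(d_1, …, d_r)`;
* for `t > k` the space of the forms of degree `t` in the ideal of `X` is at least as large as for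
  such a complete intersection;
* if `k ≤ 0`, the codimension of `X` in its linear span is at most the number of prime factors
  of `D`, and at most the logarithm of `D` in base two;
* if `k ≤ 0` and `D` is a prime number then `X` is a complete intersection. -/
theorem result (N r D e : ℕ) (k : ℤ) (hN : 4 * r ≤ N)
    (I : Ideal (MvPolynomial (Fin (N + 1)) ℂ)) (hI : IsSmoothVariety N r I) (a : Fin r → ℂ)
    (h : ℤ → ℕ) (hX : CohomologyData N r D k I a h)
    (he : 0 < e) (hek : 2 * e ≤ N + 2 + k)
    (hnorm : ∀ t : ℕ, t < e → h t = (N + t).choose N)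
    (hrk : (2 : ℤ) ^ r + k ≤ 2 * e + 1) :
    ∃ d : Fin r → ℕ, (∀ j, 0 < d j ∧ a j = d j) ∧ (2 ≤ r → ∀ j, e ≤ d j) ∧
      ∏ j, d j = D ∧ k = ∑ j, (d j : ℤ) - N - 1 ∧
      (∀ᶠ t : ℕ in Filter.atTop, (hilb I t : ℤ) = ciHilb N d t) ∧
      (∀ t : ℕ, k < t → (hilb I t : ℤ) ≤ ciHilb N d t) ∧
      (k ≤ 0 → r ≤ Module.finrank ℂ (linsub I) + ArithmeticFunction.cardFactors D ∧
        2 ^ r ≤ 2 ^ Module.finrank ℂ (linsub I) * D) ∧
      (k ≤ 0 → D.Prime → ∃ F : Fin r → MvPolynomial (Fin (N + 1)) ℂ,
        (∀ j, ∃ m, (F j).IsHomogeneous m) ∧ I = Ideal.span (Set.range F)) := by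
  classical
  obtain ⟨hD, hdeg⟩ := hX.degree
  have ha : ∀ k, a k ≠ 0 := by
    intro k hk
    have h1 : ∏ k, a k = 0 := Finset.prod_eq_zero (Finset.mem_univ k) hk
    rw [h1] at hdeg
    have : (D : ℂ) ≠ 0 := by exact_mod_cast hD.ne'
    exact this hdeg.symm
  obtain ⟨c, hc⟩ : ∃ c : ℕ, (c : ℤ) = N + 1 + k := ⟨(N + 1 + k).toNat, Int.toNat_of_nonneg (by omega)⟩
  have hsum : ∑ j, a j = (c : ℂ) := by
    have h1 : ((c : ℤ) : ℂ) = ((N + 1 + k : ℤ) : ℂ) := by rw [hc]
    push_cast at h1
    rw [h1, hX.adjunction]
  have hval : ∀ t : ℤ, k - e < t → t < e → hilbPoly N a t =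
      (if 0 ≤ t then (((N + t).toNat.choose N : ℕ) : ℂ) else 0) +
      (-1) ^ (N + r) * (if 0 ≤ k - t then (((N + (k - t)).toNat.choose N : ℕ) : ℂ) else 0) := by
    have h1 : ∀ t : ℤ, t < e → (h t : ℂ) =
        if 0 ≤ t then (((N + t).toNat.choose N : ℕ) : ℂ) else 0 := by
      intro t ht
      split_ifs with h2
      · obtain ⟨s, rfl⟩ := Int.eq_ofNat_of_zero_le h2
        have h3 : ((N : ℤ) + (s : ℤ)).toNat = N + s := by omega
        have h4 := hnorm s (by omega)
        rw [h3, ← h4]
      · rw [hX.negative t (by omega)]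
        simp
    intro t ht ht'
    rw [hX.euler, h1 t ht', h1 (k - t) (by omega)]
  have hroots := roots_integral a ha hsum hc he (by omega) (by omega) hval
  choose d hd0 hd using hroots
  have had : a = fun k => (d k : ℂ) := funext hd
  have hprod : ∏ j, d j = D := by
    simp_rw [hd] at hdeg
    exact_mod_cast hdeg
  have hsumd : ∑ j, d j = c := by
    simp_rw [hd] at hsum
    exact_mod_cast hsum
  have hvalt : ∀ t : ℕ, k < t → hilbPoly N a t = ((ciHilb N d t : ℤ) : ℂ) := fun t ht => by
    rw [had]; exact hilbPoly_nat d t (by omega)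
  have hle : ∀ t : ℕ, k < t → (hilb I t : ℤ) ≤ ciHilb N d t := by
    intro t ht
    have h0 := hX.euler t
    rw [hX.negative (k - t) (by omega)] at h0
    have h1 : ((h t : ℤ) : ℂ) = ((ciHilb N d t : ℤ) : ℂ) := by
      rw [← hvalt t ht]
      push_cast at h0 ⊢
      rw [h0]
      simp
    have h2 : (h t : ℤ) = ciHilb N d t := by exact_mod_cast h1
    rw [← h2]
    exact_mod_cast hX.restriction t
  have h4 : k ≤ 0 → r ≤ Module.finrank ℂ (linsub I) +
      (Finset.univ.filter (fun k => d k ≠ 1)).card := by
    intro hk0
    rcases Nat.eq_zero_or_pos r with hr | hr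
    · omega
    have h1 := hle 1 (by omega)
    rw [ciHilb_one d hd0 (by omega)] at h1
    have h2 := hilb_one I
    have h3 : (Finset.univ.filter (fun k => d k = 1)).card +
        (Finset.univ.filter (fun k => d k ≠ 1)).card = r := by
      have := Finset.card_filter_add_card_filter_not (s := (Finset.univ : Finset (Fin r)))
        (fun k => d k = 1)
      rw [Finset.card_univ, Fintype.card_fin] at this
      exact this
    omega
  have h5 := card_le_omega d hd0
  have h6 := two_pow_le d hd0
  rw [hprod] at h5 h6
  refine ⟨d, fun k => ⟨hd0 k, hd k⟩, fun hr => roots_ge a d hd0 hd hr hsum hc he (by omega)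
    (by omega) hval, hprod, ?_, ?_, hle, fun hk0 => ⟨(h4 hk0).trans (Nat.add_le_add_left h5 _), ?_⟩,
    ?_⟩
  · have h7 : ∑ j, (d j : ℤ) = c := by exact_mod_cast hsumd
    omega
  · filter_upwards [hX.riemannRoch, Filter.eventually_gt_atTop k.toNat] with t ht htk
    have h7 : ((hilb I t : ℤ) : ℂ) = ((ciHilb N d t : ℤ) : ℂ) := by
      rw [← hvalt t (by omega), ← ht]; simp
    exact_mod_cast h7
  · calc 2 ^ r ≤ 2 ^ (Module.finrank ℂ (linsub I) +
          (Finset.univ.filter (fun k => d k ≠ 1)).card) :=
          Nat.pow_le_pow_right (by norm_num) (h4 hk0)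
      _ = 2 ^ Module.finrank ℂ (linsub I) *
          2 ^ (Finset.univ.filter (fun k => d k ≠ 1)).card := pow_add _ _ _
      _ ≤ _ := Nat.mul_le_mul_left _ h6
  · intro hk0 hp
    have h7 : ArithmeticFunction.cardFactors D = 1 :=
      ArithmeticFunction.cardFactors_eq_one_iff_prime.2 hp
    have h8 := h4 hk0
    obtain ⟨F, hF, -, -, hF'⟩ := isCI_of_linsub r I hI.prime hI.homogeneous hI.smooth hI.nonempty
      (by omega)
    exact ⟨F, hF, hF'⟩

end Pool.Agent.Results.MP_014caa_ag.FanoSubvarieties
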